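import Pool.Agent.H41.CFMain

set_option autoImplicit false

namespace Pool.Agent.H41.CFX

open Pool.Agent.H41.CF

/-- the shear making second coordinates distinct -/
def shear (ε : ℝ) (z : ℝ × ℝ) : ℝ × ℝ := (z.1, z.2 + ε * z.1)

lemma shear_inv (ε : ℝ) (z : ℝ × ℝ) : shear (-ε) (shear ε z) = z := by
  unfold shear; ext <;> simp

lemma shear_inj (ε : ℝ) : Function.Injective (shear ε) :=
  Function.LeftInverse.injective (shear_inv ε)

lemma det3_shear (ε : ℝ) (p q r : ℝ × ℝ) : det3 (shear ε p) (shear ε q) (shear ε r) = det3 p q r := by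
  unfold det3 shear; ring

lemma shear_segment (ε : ℝ) {p q z : ℝ × ℝ} (h : z ∈ segment ℝ p q) :
    shear ε z ∈ segment ℝ (shear ε p) (shear ε q) := by
  rw [segment_eq_image'] at h ⊢
  obtain ⟨θ, hθ, rfl⟩ := h
  refine ⟨θ, hθ, ?_⟩
  unfold shear
  ext
  · simp
  · simp only [Prod.snd_add, Prod.smul_snd, Prod.snd_sub, Prod.fst_add, Prod.smul_fst, Prod.fst_sub,
      smul_eq_mul]
    ring

lemma det3_ne_zero {x y z : ℝ × ℝ} (hxy : x ≠ y)
    (h : ¬ Collinear ℝ ({x, y, z} : Set (ℝ × ℝ))) : det3 x y z ≠ 0 := by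
  intro hd
  apply h
  rw [collinear_iff_of_mem (p₀ := x) (by simp)]
  refine ⟨y - x, ?_⟩
  intro p hp
  simp only [Set.mem_insert_iff, Set.mem_singleton_iff] at hp
  rcases hp with rfl | rfl | rfl
  · exact ⟨0, by simp⟩
  · exact ⟨1, by simp⟩
  · unfold det3 at hd
    by_cases h1 : y.1 - x.1 = 0
    · have h2 : y.2 - x.2 ≠ 0 := by
        intro h2
        apply hxy
        ext
        · linarith
        · linarith
      refine ⟨(p.2 - x.2) / (y.2 - x.2), ?_⟩
      ext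
      · simp only [vadd_eq_add, Prod.fst_add, Prod.smul_fst, Prod.fst_sub, smul_eq_mul]
        rw [h1] at hd ⊢
        have : (y.2 - x.2) * (p.1 - x.1) = 0 := by linarith
        rcases mul_eq_zero.mp this with h3 | h3
        · exact absurd h3 h2
        · linarith
      · simp only [vadd_eq_add, Prod.snd_add, Prod.smul_snd, Prod.snd_sub, smul_eq_mul]
        field_simp
        ring
    · refine ⟨(p.1 - x.1) / (y.1 - x.1), ?_⟩
      ext
      · simp only [vadd_eq_add, Prod.fst_add, Prod.smul_fst, Prod.fst_sub, smul_eq_mul]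
        field_simp
        ring
      · simp only [vadd_eq_add, Prod.snd_add, Prod.smul_snd, Prod.snd_sub, smul_eq_mul]
        field_simp
        linarith

open Classical in
/-- a good shear -/
lemma exists_shear (P : Finset (ℝ × ℝ)) : ∃ ε : ℝ, ∀ x ∈ P, ∀ y ∈ P,
    x.2 + ε * x.1 = y.2 + ε * y.1 → x = y := by
  obtain ⟨ε, hε⟩ := Infinite.exists_notMem_finset
    ((P ×ˢ P).image (fun q : (ℝ × ℝ) × (ℝ × ℝ) => (q.2.2 - q.1.2) / (q.1.1 - q.2.1)))
  refine ⟨ε, ?_⟩
  intro x hx y hy h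
  by_contra hne
  have h1 : x.1 - y.1 ≠ 0 := by
    intro h1
    apply hne
    have h2 : x.1 = y.1 := by linarith
    ext
    · exact h2
    · rw [h2] at h
      linarith
  apply hε
  rw [Finset.mem_image]
  refine ⟨(x, y), Finset.mem_product.mpr ⟨hx, hy⟩, ?_⟩
  show (y.2 - x.2) / (x.1 - y.1) = ε
  rw [div_eq_iff h1]
  linarith


lemma wbtw_not {P : Finset (ℝ × ℝ)}
    (hcol : ∀ x ∈ P, ∀ y ∈ P, ∀ z ∈ P, x ≠ y → x ≠ z → y ≠ z →
      ¬ Collinear ℝ ({x, y, z} : Set (ℝ × ℝ))) {p r s : ℝ × ℝ} (hp : p ∈ P) (hr : r ∈ P) (hs : s ∈ P)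
    (h1 : p ≠ r) (h2 : p ≠ s) (h3 : r ≠ s) : p ∉ segment ℝ r s := by
  intro h
  exact hcol r hr p hp s hs h1.symm h3 h2 (mem_segment_iff_wbtw.1 h).collinear

lemma proper {P : Finset (ℝ × ℝ)}
    (hcol : ∀ x ∈ P, ∀ y ∈ P, ∀ z ∈ P, x ≠ y → x ≠ z → y ≠ z →
      ¬ Collinear ℝ ({x, y, z} : Set (ℝ × ℝ))) {p q r s : ℝ × ℝ} (hp : p ∈ P) (hq : q ∈ P)
    (hr : r ∈ P) (hs : s ∈ P) (hpq : p ≠ q) (hpr : p ≠ r) (hps : p ≠ s) (hqr : q ≠ r) (hqs : q ≠ s)
    (hrs : r ≠ s) (h : (segment ℝ p q ∩ segment ℝ r s).Nonempty) :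
    (openSegment ℝ p q ∩ openSegment ℝ r s).Nonempty := by
  obtain ⟨z, h1, h2⟩ := h
  refine ⟨z, ?_, ?_⟩
  · rw [← insert_endpoints_openSegment] at h1
    rcases h1 with rfl | rfl | h1
    · exact absurd h2 (wbtw_not hcol hp hr hs hpr hps hrs)
    · exact absurd h2 (wbtw_not hcol hq hr hs hqr hqs hrs)
    · exact h1
  · rw [← insert_endpoints_openSegment] at h2
    rcases h2 with rfl | rfl | h2
    · exact absurd h1 (wbtw_not hcol hr hp hq hpr.symm hqr.symm hpq)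
    · exact absurd h1 (wbtw_not hcol hs hp hq hps.symm hqs.symm hpq)
    · exact h2

/-- the strong form -/
theorem main (P : Finset (ℝ × ℝ)) (hP : 3 ≤ P.card)
    (hcol : ∀ x ∈ P, ∀ y ∈ P, ∀ z ∈ P, x ≠ y → x ≠ z → y ≠ z →
      ¬ Collinear ℝ ({x, y, z} : Set (ℝ × ℝ))) :
    ∃ (m : ℕ) (a b c : Fin m → ℝ × ℝ) (l : ℝ × ℝ →ₗ[ℝ] ℝ),
      P.card ≤ 1200 * 16 ^ 15 * m ∧
      (∀ i, a i ∈ P ∧ b i ∈ P ∧ c i ∈ P) ∧
      Function.Injective a ∧ Function.Injective b ∧ Function.Injective c ∧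
      (∀ i j k, l (a i) < l (b j) ∧ l (b j) < l (c k)) ∧
      ∀ i j, i ≠ j → (openSegment ℝ (a i) (b i) ∩ openSegment ℝ (a j) (b j)).Nonempty ∨
        (openSegment ℝ (b i) (c i) ∩ openSegment ℝ (b j) (c j)).Nonempty := by
  classical
  obtain ⟨ε, hε⟩ := exists_shear P
  let l : ℝ × ℝ →ₗ[ℝ] ℝ := LinearMap.snd ℝ ℝ ℝ + ε • LinearMap.fst ℝ ℝ ℝ
  have hl : ∀ z : ℝ × ℝ, l z = (shear ε z).2 := by
    intro z
    simp [l, shear]
  by_cases hn : P.card < 100
  · -- a single path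
    have key : ∃ x y z : ℝ × ℝ, x ∈ P ∧ y ∈ P ∧ z ∈ P ∧ l x < l y ∧ l y < l z := by
      obtain ⟨x, y, z, hx, hy, hz, hxy, hxz, hyz⟩ := Finset.two_lt_card_iff.mp (by omega : 2 < P.card)
      have hinj : ∀ u ∈ P, ∀ v ∈ P, u ≠ v → l u ≠ l v := fun u hu v hv huv h => by
        rw [hl, hl] at h
        exact huv (hε u hu v hv h)
      have e1 := hinj x hx y hy hxy
      have e2 := hinj x hx z hz hxz
      have e3 := hinj y hy z hz hyz
      rcases lt_or_gt_of_ne e1 with h1 | h1 <;> rcases lt_or_gt_of_ne e2 with h2 | h2 <;>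
        rcases lt_or_gt_of_ne e3 with h3 | h3
      · exact ⟨x, y, z, hx, hy, hz, h1, h3⟩
      · exact ⟨x, z, y, hx, hz, hy, h2, h3⟩
      · exact absurd (h1.trans h3) (not_lt.mpr h2.le)
      · exact ⟨z, x, y, hz, hx, hy, h2, h1⟩
      · exact ⟨y, x, z, hy, hx, hz, h1, h2⟩
      · exact absurd (h2.trans h3) (not_lt.mpr h1.le)
      · exact ⟨y, z, x, hy, hz, hx, h3, h2⟩
      · exact ⟨z, y, x, hz, hy, hx, h3, h1⟩
    obtain ⟨x, y, z, hx, hy, hz, h1, h2⟩ := key
    refine ⟨1, fun _ => x, fun _ => y, fun _ => z, l, ?_, fun _ => ⟨hx, hy, hz⟩,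
      fun i j _ => Subsingleton.elim i j, fun i j _ => Subsingleton.elim i j,
      fun i j _ => Subsingleton.elim i j, fun _ _ _ => ⟨h1, h2⟩, ?_⟩
    · have : (100 : ℕ) ≤ 1200 * 16 ^ 15 * 1 := by norm_num
      omega
    · intro i j hij
      exact absurd (Subsingleton.elim i j) hij
  · push Not at hn
    have hcard : (P.image (shear ε)).card = P.card :=
      Finset.card_image_of_injective P (shear_inj ε)
    have hgp : GP (P.image (shear ε)) := by
      intro i hi j hj k hk hij hik hjk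
      rw [Finset.mem_image] at hi hj hk
      obtain ⟨i, hi, rfl⟩ := hi
      obtain ⟨j, hj, rfl⟩ := hj
      obtain ⟨k, hk, rfl⟩ := hk
      rw [det3_shear]
      have h1 : i ≠ j := fun h => hij (by rw [h])
      have h2 : i ≠ k := fun h => hik (by rw [h])
      have h3 : j ≠ k := fun h => hjk (by rw [h])
      exact det3_ne_zero h1 (hcol i hi j hj k hk h1 h2 h3)
    have hy : ∀ x ∈ P.image (shear ε), ∀ y ∈ P.image (shear ε), x.2 = y.2 → x = y := by
      intro x hx y hy h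
      rw [Finset.mem_image] at hx hy
      obtain ⟨x, hx, rfl⟩ := hx
      obtain ⟨y, hy, rfl⟩ := hy
      rw [hε x hx y hy h]
    obtain ⟨m, hm, A, B, C, hA, hB, hC, hAB, hBC, ⟨F⟩⟩ := select hgp hy (by rw [hcard]; exact hn)
    rw [hcard] at hm
    have hmem : ∀ z ∈ P.image (shear ε), shear (-ε) z ∈ P := by
      intro z hz
      rw [Finset.mem_image] at hz
      obtain ⟨w, hw, rfl⟩ := hz
      rw [shear_inv]
      exact hw
    have hinj := shear_inj (-ε)
    have hback : ∀ z : ℝ × ℝ, shear ε (shear (-ε) z) = z := by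
      intro z
      have := shear_inv (-ε) z
      rwa [neg_neg] at this
    have hl' : ∀ z : ℝ × ℝ, l (shear (-ε) z) = z.2 := by
      intro z
      rw [hl, hback]
    have hPa : ∀ i, shear (-ε) (F.a i) ∈ P := fun i => hmem _ (hA (F.ha i))
    have hPb : ∀ i, shear (-ε) (F.b i) ∈ P := fun i => hmem _ (hB (F.hb i))
    have hPc : ∀ i, shear (-ε) (F.c i) ∈ P := fun i => hmem _ (hC (F.hc i))
    have nab : ∀ i j, shear (-ε) (F.a i) ≠ shear (-ε) (F.b j) := fun i j h => by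
      have := hAB _ (F.ha i) _ (F.hb j)
      rw [hinj h] at this
      exact lt_irrefl _ this
    have nbc : ∀ i j, shear (-ε) (F.b i) ≠ shear (-ε) (F.c j) := fun i j h => by
      have := hBC _ (F.hb i) _ (F.hc j)
      rw [hinj h] at this
      exact lt_irrefl _ this
    refine ⟨m, fun i => shear (-ε) (F.a i), fun i => shear (-ε) (F.b i),
      fun i => shear (-ε) (F.c i), l, hm, fun i => ⟨hPa i, hPb i, hPc i⟩,
      hinj.comp F.ia, hinj.comp F.ib, hinj.comp F.ic, ?_, ?_⟩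
    · intro i j k
      show l (shear (-ε) (F.a i)) < l (shear (-ε) (F.b j)) ∧
        l (shear (-ε) (F.b j)) < l (shear (-ε) (F.c k))
      rw [hl', hl', hl']
      exact ⟨hAB _ (F.ha i) _ (F.hb j), hBC _ (F.hb j) _ (F.hc k)⟩
    · intro i j hij
      have naa : shear (-ε) (F.a i) ≠ shear (-ε) (F.a j) := fun h => hij (F.ia (hinj h))
      have nbb : shear (-ε) (F.b i) ≠ shear (-ε) (F.b j) := fun h => hij (F.ib (hinj h))
      have ncc : shear (-ε) (F.c i) ≠ shear (-ε) (F.c j) := fun h => hij (F.ic (hinj h))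
      rcases F.cr i j hij with ⟨z, h1, h2⟩ | ⟨z, h1, h2⟩
      · left
        exact proper hcol (hPa i) (hPb i) (hPa j) (hPb j) (nab i i) naa (nab i j) (nab j i).symm nbb
          (nab j j) ⟨shear (-ε) z, shear_segment _ h1, shear_segment _ h2⟩
      · right
        rw [segment_symm] at h1 h2
        exact proper hcol (hPb i) (hPc i) (hPb j) (hPc j) (nbc i i) nbb (nbc i j) (nbc j i).symm ncc
          (nbc j j) ⟨shear (-ε) z, shear_segment _ h1, shear_segment _ h2⟩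

end Pool.Agent.H41.CFX
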